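import Mathlib

/-!
# The maximal number of complete extensions of an argumentation framework

We determine `σ_max(n)` for every `n`: the maximal number of complete extensions of an
argumentation framework with `n` arguments (self-attacks allowed) is `1` for `n ≤ 1`,
`3 ^ (n / 2)` for even `n ≥ 2` and `4 * 3 ^ ((n - 3) / 2)` for odd `n ≥ 3`.
-/

namespace Pool.Agent.Results.MP_acab80_co.ExactMaximum

open Finset

/-- `S` is conflict-free: no member of `S` attacks a member of `S`. -/
def ConflictFree {A : Type*} (R : A → A → Prop) (S : Set A) : Prop :=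
  ∀ a ∈ S, ∀ b ∈ S, ¬ R a b

/-- `S` defends `a`: every attacker of `a` is attacked by some member of `S`. -/
def Defends {A : Type*} (R : A → A → Prop) (S : Set A) (a : A) : Prop :=
  ∀ b, R b a → ∃ c ∈ S, R c b

/-- `S` is admissible: conflict-free and defends each of its elements. -/
def Admissible {A : Type*} (R : A → A → Prop) (S : Set A) : Prop :=
  ConflictFree R S ∧ ∀ a ∈ S, Defends R S a

/-- `S` is a complete extension: admissible and contains every argument it defends. -/
def IsComplete {A : Type*} (R : A → A → Prop) (S : Set A) : Prop :=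
  Admissible R S ∧ ∀ a, Defends R S a → a ∈ S

/-- The number of complete extensions of the framework `(A, R)`. -/
noncomputable def numComplete {A : Type*} (R : A → A → Prop) : ℕ :=
  Set.ncard {S : Set A | IsComplete R S}

/-- The conjectured value of `σ_max(n)`. -/
def conjValue (n : ℕ) : ℕ :=
  if n ≤ 1 then 1 else if n % 2 = 0 then 3 ^ (n / 2) else 4 * 3 ^ ((n - 3) / 2)

/-! ## Relative version -/

section Rel

open Classical

variable {α : Type*}

/-- complete extension of the framework induced on `A` -/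
def Com (A : Finset α) (R : α → α → Prop) (S : Finset α) : Prop :=
  S ⊆ A ∧ (∀ a ∈ S, ∀ b ∈ S, ¬ R a b) ∧
    (∀ a ∈ S, ∀ b ∈ A, R b a → ∃ c ∈ S, R c b) ∧
    (∀ a ∈ A, (∀ b ∈ A, R b a → ∃ c ∈ S, R c b) → a ∈ S)

/-- number of complete extensions of the framework induced on `A` -/
noncomputable def cnt (A : Finset α) (R : α → α → Prop) : ℕ :=
  (A.powerset.filter (fun S => Com A R S)).card

/-- the arguments that do not attack themselves -/
noncomputable def good (A : Finset α) (R : α → α → Prop) : Finset α :=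
  A.filter (fun a => ¬ R a a)

/-- the arguments that attack themselves -/
noncomputable def bad (A : Finset α) (R : α → α → Prop) : Finset α :=
  A.filter (fun a => R a a)

/-- what remains when `a` is accepted -/
noncomputable def rest (A : Finset α) (R : α → α → Prop) (a : α) : Finset α :=
  A.filter (fun x => x ≠ a ∧ ¬ R a x ∧ ¬ R x a)

/-- make `a` attack itself -/
def loop (R : α → α → Prop) (a : α) : α → α → Prop := fun x y => R x y ∨ (x = a ∧ y = a)

/-- number of complete extensions with the property `P` -/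
noncomputable def cntP (A : Finset α) (R : α → α → Prop) (P : Finset α → Prop) : ℕ :=
  (A.powerset.filter (fun S => Com A R S ∧ P S)).card

lemma cnt_le_of_inj {A : Finset α} {R : α → α → Prop} {A' : Finset α} {R' : α → α → Prop}
    (P : Finset α → Prop) (f : Finset α → Finset α)
    (hf : ∀ S, Com A R S → P S → Com A' R' (f S))
    (hinj : ∀ S S', Com A R S → P S → Com A R S' → P S' → f S = f S' → S = S') :
    cntP A R P ≤ cnt A' R' := by
  unfold cnt cntP
  apply Finset.card_le_card_of_injOn f
  · intro S hS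
    simp only [Finset.coe_filter, Finset.mem_powerset, Set.mem_ofPred_eq] at hS ⊢
    have := hf S hS.2.1 hS.2.2
    exact ⟨this.1, this⟩
  · intro S hS S' hS' h
    simp only [Finset.coe_filter, Finset.mem_powerset, Set.mem_ofPred_eq] at hS hS'
    exact hinj S S' hS.2.1 hS.2.2 hS'.2.1 hS'.2.2 h

lemma cnt_split (A : Finset α) (R : α → α → Prop) (P : Finset α → Prop) :
    cnt A R = cntP A R P + cntP A R (fun S => ¬ P S) := by
  unfold cnt cntP
  rw [← Finset.card_filter_add_card_filter_not (s := A.powerset.filter (fun S => Com A R S)) P,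
    Finset.filter_filter, Finset.filter_filter]
  congr!

lemma cnt_split3 (A : Finset α) (R : α → α → Prop) (a b : α) :
    cnt A R ≤ cntP A R (fun S => a ∈ S) + cntP A R (fun S => b ∈ S) +
      cntP A R (fun S => a ∉ S ∧ b ∉ S) := by
  unfold cnt cntP
  refine le_trans (Finset.card_le_card ?_)
    ((Finset.card_union_le _ _).trans (Nat.add_le_add_right (Finset.card_union_le _ _) _))
  intro S hS
  simp only [Finset.mem_union, Finset.mem_filter] at hS ⊢
  by_cases ha : a ∈ S
  · exact Or.inl (Or.inl ⟨hS.1, hS.2, ha⟩)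
  by_cases hb : b ∈ S
  · exact Or.inl (Or.inr ⟨hS.1, hS.2, hb⟩)
  exact Or.inr ⟨hS.1, hS.2, ha, hb⟩

lemma branch_in (A : Finset α) (R : α → α → Prop) (a : α) :
    cntP A R (fun S => a ∈ S) ≤ cnt (rest A R a) R := by
  apply cnt_le_of_inj (fun S => a ∈ S) (fun S => S.erase a)
  · rintro S ⟨hSA, hcf, hdef, hcom⟩ ha
    refine ⟨?_, ?_, ?_, ?_⟩
    · intro x hx
      rw [Finset.mem_erase] at hx
      simp only [rest, Finset.mem_filter]
      exact ⟨hSA hx.2, hx.1, hcf a ha x hx.2, hcf x hx.2 a ha⟩
    · intro x hx y hy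
      rw [Finset.mem_erase] at hx hy
      exact hcf x hx.2 y hy.2
    · intro x hx y hy hyx
      rw [Finset.mem_erase] at hx
      simp only [rest, Finset.mem_filter] at hy
      obtain ⟨c, hc, hcy⟩ := hdef x hx.2 y hy.1 hyx
      refine ⟨c, ?_, hcy⟩
      rw [Finset.mem_erase]
      refine ⟨?_, hc⟩
      rintro rfl
      exact hy.2.2.1 hcy
    · intro x hx hatt
      simp only [rest, Finset.mem_filter] at hx
      rw [Finset.mem_erase]
      refine ⟨hx.2.1, ?_⟩
      apply hcom x hx.1
      intro y hy hyx
      by_cases hya : y = a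
      · subst hya
        exact absurd hyx hx.2.2.1
      by_cases h1 : R a y
      · exact ⟨a, ha, h1⟩
      by_cases h2 : R y a
      · exact hdef a ha y hy h2
      have hyr : y ∈ rest A R a := by
        simp only [rest, Finset.mem_filter]
        exact ⟨hy, hya, h1, h2⟩
      obtain ⟨c, hc, hcy⟩ := hatt y hyr hyx
      exact ⟨c, (Finset.mem_erase.1 hc).2, hcy⟩
  · intro S S' _ ha _ ha' h
    have h' : S.erase a = S'.erase a := h
    rw [← Finset.insert_erase ha, ← Finset.insert_erase ha', h']

lemma branch_out (A : Finset α) (R : α → α → Prop) (a : α) :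
    cntP A R (fun S => ¬ a ∈ S) ≤ cnt A (loop R a) := by
  apply cnt_le_of_inj (fun S => ¬ a ∈ S) (fun S => S)
  · rintro S ⟨hSA, hcf, hdef, hcom⟩ ha
    refine ⟨hSA, ?_, ?_, ?_⟩
    · intro x hx y hy h
      rcases h with h | ⟨rfl, _⟩
      · exact hcf x hx y hy h
      · exact ha hx
    · intro x hx y hy hyx
      rcases hyx with h | ⟨_, rfl⟩
      · obtain ⟨c, hc, hcy⟩ := hdef x hx y hy h
        exact ⟨c, hc, Or.inl hcy⟩
      · exact absurd hx ha
    · intro x hx hatt
      have key : ∀ y ∈ A, loop R a y x → ∃ c ∈ S, R c y := by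
        intro y hy hyx
        obtain ⟨c, hc, hcy⟩ := hatt y hy hyx
        rcases hcy with h | ⟨rfl, _⟩
        · exact ⟨c, hc, h⟩
        · exact absurd hc ha
      by_cases hxa : x = a
      · subst hxa
        obtain ⟨c, hc, hcx⟩ := key x hx (Or.inr ⟨rfl, rfl⟩)
        obtain ⟨d, hd, hdc⟩ := key c (hSA hc) (Or.inl hcx)
        exact absurd hdc (hcf d hd c hc)
      · exact hcom x hx (fun y hy hyx => key y hy (Or.inl hyx))
  · intro S S' _ _ _ _ h
    exact h

lemma com_sub_good {A : Finset α} {R : α → α → Prop} {S : Finset α} (h : Com A R S) :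
    S ⊆ good A R := by
  intro x hx
  simp only [good, Finset.mem_filter]
  exact ⟨h.1 hx, h.2.1 x hx x hx⟩

lemma cnt_le_pow_good (A : Finset α) (R : α → α → Prop) :
    cnt A R ≤ 2 ^ (good A R).card := by
  unfold cnt
  rw [← Finset.card_powerset]
  apply Finset.card_le_card
  intro S hS
  rw [Finset.mem_filter] at hS
  rw [Finset.mem_powerset]
  exact com_sub_good hS.2

lemma cnt_le_pow_bad (A : Finset α) (R : α → α → Prop)
    (h : ∀ x ∈ good A R, ∀ y ∈ good A R, ¬ R x y) :
    cnt A R ≤ 2 ^ (bad A R).card := by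
  unfold cnt
  rw [← Finset.card_powerset]
  apply Finset.card_le_card_of_injOn (fun S => (bad A R).filter (fun x => ∃ c ∈ S, R c x))
  · intro S _
    simp only [Finset.coe_powerset, Set.mem_preimage, Set.mem_powerset_iff, Finset.coe_subset]
    exact Finset.filter_subset _ _
  · have main : ∀ S S' : Finset α, Com A R S → Com A R S' →
        (bad A R).filter (fun x => ∃ c ∈ S, R c x) = (bad A R).filter (fun x => ∃ c ∈ S', R c x) →
        S ⊆ S' := by
      intro S S' hS hS' he x hx
      have hxg := com_sub_good hS hx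
      apply hS'.2.2.2 x (hS.1 hx)
      intro y hy hyx
      have hyb : y ∈ bad A R := by
        simp only [bad, Finset.mem_filter]
        refine ⟨hy, ?_⟩
        by_contra hyy
        exact h y (by simp only [good, Finset.mem_filter]; exact ⟨hy, hyy⟩) x hxg hyx
      have : y ∈ (bad A R).filter (fun x => ∃ c ∈ S, R c x) := by
        rw [Finset.mem_filter]
        exact ⟨hyb, hS.2.2.1 x hx y hy hyx⟩
      rw [he, Finset.mem_filter] at this
      exact this.2
    intro S hS S' hS' he
    rw [Finset.mem_coe, Finset.mem_filter] at hS hS'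
    exact Finset.Subset.antisymm (main S S' hS.2 hS'.2 he) (main S' S hS'.2 hS.2 he.symm)

lemma good_loop (A : Finset α) (R : α → α → Prop) (a : α) :
    good A (loop R a) = (good A R).erase a := by
  ext x
  simp only [good, loop, Finset.mem_filter, Finset.mem_erase]
  constructor
  · rintro ⟨h1, h2⟩
    refine ⟨?_, h1, fun h => h2 (Or.inl h)⟩
    rintro rfl
    exact h2 (Or.inr ⟨rfl, rfl⟩)
  · rintro ⟨h1, h2, h3⟩
    refine ⟨h2, ?_⟩
    rintro (h | ⟨h, _⟩)
    · exact h3 h
    · exact h1 h

lemma bad_loop_card (A : Finset α) (R : α → α → Prop) (a : α) :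
    (bad A (loop R a)).card ≤ (bad A R).card + 1 := by
  refine (Finset.card_le_card ?_).trans (Finset.card_insert_le a (bad A R))
  intro x hx
  simp only [bad, loop, Finset.mem_filter, Finset.mem_insert] at hx ⊢
  rcases hx with ⟨h1, h | ⟨h, _⟩⟩
  · exact Or.inr ⟨h1, h⟩
  · exact Or.inl h

lemma good_rest_sub (A : Finset α) (R : α → α → Prop) (a : α) :
    good (rest A R a) R ⊆ (good A R).erase a := by
  intro x hx
  simp only [good, rest, Finset.mem_filter, Finset.mem_erase] at hx ⊢
  exact ⟨hx.1.2.1, hx.1.1, hx.2⟩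

lemma bad_rest_card (A : Finset α) (R : α → α → Prop) (a : α) :
    (bad (rest A R a) R).card ≤ (bad A R).card := by
  apply Finset.card_le_card
  intro x hx
  simp only [bad, rest, Finset.mem_filter] at hx ⊢
  exact ⟨hx.1.1, hx.2⟩

lemma claimT (j : ℕ) : ∀ (T : ℕ) (A : Finset α) (R : α → α → Prop),
    (good A R).card ≤ T + 2 * j → (bad A R).card ≤ T + 1 → cnt A R ≤ 2 ^ T * 3 ^ j := by
  induction j with
  | zero =>
    intro T A R h1 _
    refine (cnt_le_pow_good A R).trans ?_
    simpa using Nat.pow_le_pow_right (by norm_num : 0 < 2) (by simpa using h1)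
  | succ j ih =>
    intro T A R h1 h2
    by_cases hex : ∀ x ∈ good A R, ∀ y ∈ good A R, ¬ R x y
    · refine (cnt_le_pow_bad A R hex).trans ?_
      have e1 : 2 ^ (bad A R).card ≤ 2 ^ (T + 1) := Nat.pow_le_pow_right (by norm_num) h2
      have e2 : 1 ≤ 3 ^ j := Nat.one_le_pow _ _ (by norm_num)
      calc 2 ^ (bad A R).card ≤ 2 ^ (T + 1) := e1
        _ = 2 ^ T * 2 := pow_succ _ _
        _ ≤ 2 ^ T * 3 ^ (j + 1) := by
            apply Nat.mul_le_mul_left
            rw [pow_succ]
            omega
    · push Not at hex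
      obtain ⟨a, ha, b, hb, hab⟩ := hex
      have hne : b ≠ a := by
        rintro rfl
        simp only [good, Finset.mem_filter] at ha
        exact ha.2 hab
      rw [cnt_split A R (fun S => a ∈ S)]
      have b1 := branch_in A R a
      have b2 := branch_out A R a
      have c1 : (good (rest A R a) R).card ≤ T + 2 * j := by
        have : good (rest A R a) R ⊆ ((good A R).erase a).erase b := by
          intro x hx
          rw [Finset.mem_erase]
          refine ⟨?_, good_rest_sub A R a hx⟩
          rintro rfl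
          simp only [good, rest, Finset.mem_filter] at hx
          exact hx.1.2.2.1 hab
        have h3 := Finset.card_le_card this
        rw [Finset.card_erase_of_mem (Finset.mem_erase.2 ⟨hne, hb⟩),
          Finset.card_erase_of_mem ha] at h3
        omega
      have d1 := ih T (rest A R a) R c1 ((bad_rest_card A R a).trans h2)
      have c2 : (good A (loop R a)).card ≤ (T + 1) + 2 * j := by
        rw [good_loop, Finset.card_erase_of_mem ha]
        omega
      have c3 : (bad A (loop R a)).card ≤ (T + 1) + 1 :=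
        (bad_loop_card A R a).trans (by omega)
      have d2 := ih (T + 1) A (loop R a) c2 c3
      have e : 2 ^ T * 3 ^ (j + 1) = 2 ^ T * 3 ^ j + 2 ^ (T + 1) * 3 ^ j := by ring
      rw [e]
      exact Nat.add_le_add (b1.trans d1) (b2.trans d2)

/-- an isolated pair can be removed at the price of a factor three -/
lemma pair_bound (A : Finset α) (R : α → α → Prop) (a b : α)
    (hab : R a b ∨ R b a)
    (hnb : ∀ x ∈ A, x ≠ a → x ≠ b → ¬ R a x ∧ ¬ R x a ∧ ¬ R b x ∧ ¬ R x b) :
    cnt A R ≤ 3 * cnt (A.filter (fun x => x ≠ a ∧ x ≠ b)) R := by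
  have hra : rest A R a = A.filter (fun x => x ≠ a ∧ x ≠ b) := by
    ext x
    simp only [rest, Finset.mem_filter]
    constructor
    · rintro ⟨h1, h2, h3, h4⟩
      refine ⟨h1, h2, ?_⟩
      rintro rfl
      exact hab.elim h3 h4
    · rintro ⟨h1, h2, h3⟩
      have := hnb x h1 h2 h3
      exact ⟨h1, h2, this.1, this.2.1⟩
  have hrb : rest A R b = A.filter (fun x => x ≠ a ∧ x ≠ b) := by
    ext x
    simp only [rest, Finset.mem_filter]
    constructor
    · rintro ⟨h1, h2, h3, h4⟩
      refine ⟨h1, ?_, h2⟩
      rintro rfl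
      exact hab.elim h4 h3
    · rintro ⟨h1, h2, h3⟩
      have := hnb x h1 h2 h3
      exact ⟨h1, h3, this.2.2.1, this.2.2.2⟩
  have b1 := branch_in A R a
  have b2 := branch_in A R b
  rw [hra] at b1
  rw [hrb] at b2
  have b3 : cntP A R (fun S => a ∉ S ∧ b ∉ S) ≤ cnt (A.filter (fun x => x ≠ a ∧ x ≠ b)) R := by
    apply cnt_le_of_inj (fun S => a ∉ S ∧ b ∉ S) (fun S => S)
    · rintro S ⟨hSA, hcf, hdef, hcom⟩ ⟨ha, hb⟩
      refine ⟨?_, hcf, ?_, ?_⟩
      · intro x hx
        rw [Finset.mem_filter]
        refine ⟨hSA hx, ?_, ?_⟩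
        · rintro rfl
          exact ha hx
        · rintro rfl
          exact hb hx
      · intro x hx y hy hyx
        exact hdef x hx y (Finset.mem_filter.1 hy).1 hyx
      · intro x hx hatt
        rw [Finset.mem_filter] at hx
        have hn := hnb x hx.1 hx.2.1 hx.2.2
        apply hcom x hx.1
        intro y hy hyx
        apply hatt y _ hyx
        rw [Finset.mem_filter]
        refine ⟨hy, ?_, ?_⟩
        · rintro rfl
          exact hn.1 hyx
        · rintro rfl
          exact hn.2.2.1 hyx
    · intro S S' _ _ _ _ h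
      exact h
  have := cnt_split3 A R a b
  omega

lemma cnt_small (A : Finset α) (R : α → α → Prop) (hbad : bad A R = ∅) (hc : A.card ≤ 1) :
    cnt A R ≤ 1 := by
  have := cnt_le_pow_bad A R (by
    intro x hx y hy hxy
    have hxA : x ∈ A := (Finset.mem_filter.1 hx).1
    have hyA : y ∈ A := (Finset.mem_filter.1 hy).1
    have : x = y := Finset.card_le_one.1 hc x hxA y hyA
    subst this
    exact (Finset.mem_filter.1 hx).2 hxy)
  rw [hbad] at this
  simpa using this

lemma good_of_bad {A : Finset α} {R : α → α → Prop} (hbad : bad A R = ∅) : good A R = A := by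
  ext x
  simp only [good, Finset.mem_filter]
  constructor
  · exact fun h => h.1
  · intro h
    refine ⟨h, fun hx => ?_⟩
    have : x ∈ bad A R := by
      simp only [bad, Finset.mem_filter]
      exact ⟨h, hx⟩
    rw [hbad] at this
    simp at this

lemma bad_sub {A A' : Finset α} {R : α → α → Prop} (hbad : bad A R = ∅) (h : A' ⊆ A) :
    bad A' R = ∅ := by
  rw [Finset.eq_empty_iff_forall_notMem] at hbad ⊢
  intro x hx
  apply hbad x
  simp only [bad, Finset.mem_filter] at hx ⊢
  exact ⟨h hx.1, hx.2⟩

lemma odd_step (j : ℕ)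
    (hprev : ∀ (A : Finset α) (R : α → α → Prop), bad A R = ∅ → A.card + 2 ≤ 2 * j + 3 →
      3 * cnt A R ≤ 4 * 3 ^ j)
    (A : Finset α) (R : α → α → Prop) (hbad : bad A R = ∅) (hc : A.card ≤ 2 * j + 3) :
    cnt A R ≤ 4 * 3 ^ j := by
  have hpos : 1 ≤ 3 ^ j := Nat.one_le_pow _ _ (by norm_num)
  have hg := good_of_bad hbad
  have hirr : ∀ x ∈ A, ¬ R x x := by
    intro x hx
    rw [← hg] at hx
    exact (Finset.mem_filter.1 hx).2
  by_cases hno : ∀ x ∈ A, ∀ y ∈ A, ¬ R x y
  · have := cnt_le_pow_bad A R (by rw [hg]; exact hno)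
    rw [hbad] at this
    simp only [Finset.card_empty, pow_zero] at this
    omega
  push Not at hno
  obtain ⟨a, ha, b, hb, hab⟩ := hno
  have hne : a ≠ b := by
    rintro rfl
    exact hirr a ha hab
  by_cases h2 : ∃ u ∈ A, ∃ v ∈ A, ∃ w ∈ A, u ≠ v ∧ u ≠ w ∧ v ≠ w ∧ (R u v ∨ R v u) ∧
      (R u w ∨ R w u)
  · obtain ⟨u, hu, v, hv, w, hw, huv, huw, hvw, h3, h4⟩ := h2
    have b1 := branch_in A R u
    have b2 := branch_out A R u
    have c1 : (good (rest A R u) R).card ≤ 0 + 2 * j := by
      have : good (rest A R u) R ⊆ ((A.erase u).erase v).erase w := by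
        intro x hx
        have hx1 := good_rest_sub A R u hx
        rw [hg] at hx1
        simp only [good, rest, Finset.mem_filter] at hx
        rw [Finset.mem_erase, Finset.mem_erase]
        refine ⟨?_, ?_, hx1⟩
        · rintro rfl
          exact h4.elim hx.1.2.2.1 hx.1.2.2.2
        · rintro rfl
          exact h3.elim hx.1.2.2.1 hx.1.2.2.2
      have h5 := Finset.card_le_card this
      rw [Finset.card_erase_of_mem (by
          rw [Finset.mem_erase, Finset.mem_erase]; exact ⟨hvw.symm, huw.symm, hw⟩),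
        Finset.card_erase_of_mem (Finset.mem_erase.2 ⟨huv.symm, hv⟩),
        Finset.card_erase_of_mem hu] at h5
      omega
    have hb0 : (bad A R).card = 0 := by rw [hbad]; rfl
    have d1 := claimT j 0 (rest A R u) R c1 ((bad_rest_card A R u).trans (by omega))
    have c2 : (good A (loop R u)).card ≤ 0 + 2 * (j + 1) := by
      rw [good_loop, hg, Finset.card_erase_of_mem hu]
      omega
    have d2 := claimT (j + 1) 0 A (loop R u) c2 ((bad_loop_card A R u).trans (by omega))
    rw [cnt_split A R (fun S => u ∈ S)]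
    have e : 4 * 3 ^ j = 2 ^ 0 * 3 ^ j + 2 ^ 0 * 3 ^ (j + 1) := by ring
    rw [e]
    exact Nat.add_le_add (b1.trans d1) (b2.trans d2)
  · have hnb : ∀ x ∈ A, x ≠ a → x ≠ b → ¬ R a x ∧ ¬ R x a ∧ ¬ R b x ∧ ¬ R x b := by
      intro x hx hxa hxb
      refine ⟨fun h => h2 ?_, fun h => h2 ?_, fun h => h2 ?_, fun h => h2 ?_⟩
      · exact ⟨a, ha, b, hb, x, hx, hne, hxa.symm, hxb.symm, Or.inl hab, Or.inl h⟩
      · exact ⟨a, ha, b, hb, x, hx, hne, hxa.symm, hxb.symm, Or.inl hab, Or.inr h⟩
      · exact ⟨b, hb, a, ha, x, hx, hne.symm, hxb.symm, hxa.symm, Or.inr hab, Or.inl h⟩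
      · exact ⟨b, hb, a, ha, x, hx, hne.symm, hxb.symm, hxa.symm, Or.inr hab, Or.inr h⟩
    have h5 := pair_bound A R a b (Or.inl hab) hnb
    have hsub : A.filter (fun x => x ≠ a ∧ x ≠ b) ⊆ (A.erase a).erase b := by
      intro x hx
      rw [Finset.mem_filter] at hx
      rw [Finset.mem_erase, Finset.mem_erase]
      exact ⟨hx.2.2, hx.2.1, hx.1⟩
    have h6 := Finset.card_le_card hsub
    rw [Finset.card_erase_of_mem (Finset.mem_erase.2 ⟨hne.symm, hb⟩),
      Finset.card_erase_of_mem ha] at h6
    have h7 : 2 ≤ A.card := by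
      have : ({a, b} : Finset α) ⊆ A := by
        intro x hx
        simp only [Finset.mem_insert, Finset.mem_singleton] at hx
        rcases hx with rfl | rfl
        · exact ha
        · exact hb
      calc 2 = ({a, b} : Finset α).card := (Finset.card_pair hne).symm
        _ ≤ A.card := Finset.card_le_card this
    exact h5.trans (hprev _ R (bad_sub hbad (Finset.filter_subset _ _)) (by omega))

lemma odd_bound (j : ℕ) : ∀ (A : Finset α) (R : α → α → Prop),
    bad A R = ∅ → A.card ≤ 2 * j + 3 → cnt A R ≤ 4 * 3 ^ j := by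
  induction j with
  | zero =>
    intro A R hbad hc
    refine odd_step 0 ?_ A R hbad hc
    intro A R hbad hc
    have := cnt_small A R hbad (by omega)
    omega
  | succ j ih =>
    intro A R hbad hc
    refine odd_step (j + 1) ?_ A R hbad hc
    intro A R hbad hc
    have := ih A R hbad (by omega)
    rw [pow_succ]
    omega

lemma card_good_bad (A : Finset α) (R : α → α → Prop) :
    (bad A R).card + (good A R).card = A.card := by
  unfold bad good
  exact Finset.card_filter_add_card_filter_not (s := A) (fun a => R a a)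

lemma cnt_bound (A : Finset α) (R : α → α → Prop) : cnt A R ≤ conjValue A.card := by
  have hn := card_good_bad A R
  have hg := cnt_le_pow_good A R
  obtain ⟨m, hm⟩ : ∃ m, m = (good A R).card := ⟨_, rfl⟩
  obtain ⟨t, ht⟩ : ∃ t, t = (bad A R).card := ⟨_, rfl⟩
  obtain ⟨n, hn'⟩ : ∃ n, n = A.card := ⟨_, rfl⟩
  rw [← hm, ← ht, ← hn'] at hn
  rw [← hm] at hg
  rw [← hn']
  unfold conjValue
  split_ifs with h1 h2
  · by_cases ht0 : t = 0
    · apply cnt_small A R
      · apply Finset.card_eq_zero.1
        omega
      · omega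
    · have : m = 0 := by omega
      rw [this] at hg
      simpa using hg
  · by_cases hmt : t ≤ m
    · obtain ⟨j, hj⟩ : ∃ j, m = t + 2 * j := ⟨(m - t) / 2, by omega⟩
      have := claimT j t A R (by omega) (by omega)
      have e : n / 2 = t + j := by omega
      rw [e, pow_add]
      exact this.trans (Nat.mul_le_mul_right _ (Nat.pow_le_pow_left (by norm_num) t))
    · refine hg.trans ?_
      calc 2 ^ m ≤ 2 ^ (n / 2) := Nat.pow_le_pow_right (by norm_num) (by omega)
        _ ≤ 3 ^ (n / 2) := Nat.pow_le_pow_left (by norm_num) _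
  · by_cases ht0 : t = 0
    · apply odd_bound ((n - 3) / 2) A R
      · apply Finset.card_eq_zero.1
        omega
      · omega
    by_cases hmt : t ≤ m + 1
    · obtain ⟨T, hT⟩ : ∃ T, t = T + 1 := ⟨t - 1, by omega⟩
      obtain ⟨j, hj⟩ : ∃ j, m = T + 2 * j := ⟨(m - T) / 2, by omega⟩
      have := claimT j T A R (by omega) (by omega)
      refine this.trans ?_
      -- n = 2 T + 2 j + 1, (n - 3) / 2 = T + j - 1
      have e : (n - 3) / 2 + 1 = T + j := by omega
      have e2 : 3 * (2 ^ T * 3 ^ j) ≤ 3 * (4 * 3 ^ ((n - 3) / 2)) := by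
        calc 3 * (2 ^ T * 3 ^ j) ≤ 3 * (3 ^ T * 3 ^ j) :=
              Nat.mul_le_mul_left _ (Nat.mul_le_mul_right _
                (Nat.pow_le_pow_left (by norm_num) T))
          _ = 3 * 3 ^ (T + j) := by rw [pow_add]
          _ = 3 * 3 ^ ((n - 3) / 2 + 1) := by rw [e]
          _ = 3 * (3 * 3 ^ ((n - 3) / 2)) := by rw [pow_succ]; ring
          _ ≤ 3 * (4 * 3 ^ ((n - 3) / 2)) :=
              Nat.mul_le_mul_left _ (Nat.mul_le_mul_right _ (by norm_num))
      exact Nat.le_of_mul_le_mul_left e2 (by norm_num)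
    · refine hg.trans ?_
      calc 2 ^ m ≤ 2 ^ ((n - 3) / 2) := Nat.pow_le_pow_right (by norm_num) (by omega)
        _ ≤ 3 ^ ((n - 3) / 2) := Nat.pow_le_pow_left (by norm_num) _
        _ ≤ 4 * 3 ^ ((n - 3) / 2) := Nat.le_mul_of_pos_left _ (by norm_num)

end Rel

/-! ## Transfer to the absolute version -/

lemma isComplete_iff {n : ℕ} (R : Fin n → Fin n → Prop) (S : Finset (Fin n)) :
    IsComplete R (S : Set (Fin n)) ↔ Com Finset.univ R S := by
  unfold IsComplete Admissible ConflictFree Defends Com
  simp only [Finset.mem_coe, Finset.mem_univ, forall_const, Finset.subset_univ, true_and]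
  tauto

lemma numComplete_eq {n : ℕ} (R : Fin n → Fin n → Prop) :
    numComplete R = cnt Finset.univ R := by
  classical
  unfold numComplete cnt
  rw [← Set.ncard_coe_finset]
  symm
  apply Set.ncard_congr (fun (S : Finset (Fin n)) _ => (S : Set (Fin n)))
  · intro S hS
    rw [Finset.mem_coe, Finset.mem_filter] at hS
    exact (isComplete_iff R S).2 hS.2
  · intro S S' _ _ h
    exact Finset.coe_injective h
  · intro S hS
    have hS' : IsComplete R S := hS
    refine ⟨S.toFinset, ?_, by simp⟩
    rw [Finset.mem_coe, Finset.mem_filter]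
    refine ⟨by simp, ?_⟩
    rw [← isComplete_iff]
    simpa using hS'

lemma numComplete_le {n : ℕ} (R : Fin n → Fin n → Prop) : numComplete R ≤ conjValue n := by
  rw [numComplete_eq]
  have := cnt_bound Finset.univ R
  simpa using this

/-! ## Lower bound -/

/-- block index -/
def blk (k x : ℕ) : ℕ := min (x / 2) k

/-- two distinct arguments attack each other when they are in the same block -/
def blockAF (n k : ℕ) (x y : Fin n) : Prop := x ≠ y ∧ blk k x = blk k y

lemma exists_mate {n k s : ℕ} (hn : n = 2 * k + s) (hs : 2 ≤ s) (x : Fin n) :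
    ∃ y : Fin n, y ≠ x ∧ blk k y = blk k x := by
  have hx := x.2
  by_cases h1 : 2 * k + 2 ≤ x.val
  · refine ⟨⟨2 * k, by omega⟩, ?_, ?_⟩
    · intro h
      rw [Fin.ext_iff] at h
      simp only at h
      omega
    · simp only [blk]
      omega
  · by_cases h2 : x.val % 2 = 0
    · refine ⟨⟨x.val + 1, by omega⟩, ?_, ?_⟩
      · intro h
        rw [Fin.ext_iff] at h
        simp only at h
        omega
      · simp only [blk]
        omega
    · refine ⟨⟨x.val - 1, by omega⟩, ?_, ?_⟩
      · intro h
        rw [Fin.ext_iff] at h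
        simp only at h
        omega
      · simp only [blk]
        omega

lemma complete_of_inj {n k s : ℕ} (hn : n = 2 * k + s) (hs : 2 ≤ s) (S : Set (Fin n))
    (hS : ∀ x ∈ S, ∀ y ∈ S, blk k x = blk k y → x = y) : IsComplete (blockAF n k) S := by
  refine ⟨⟨?_, ?_⟩, ?_⟩
  · rintro a ha b hb ⟨h1, h2⟩
    exact h1 (hS a ha b hb h2)
  · rintro a ha b ⟨h1, h2⟩
    exact ⟨a, ha, h1.symm, h2.symm⟩
  · intro a hdef
    by_contra ha
    obtain ⟨b, hb1, hb2⟩ := exists_mate hn hs a
    obtain ⟨c, hc, hc1, hc2⟩ := hdef b ⟨hb1, hb2⟩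
    have hca : c ≠ a := by
      rintro rfl
      exact ha hc
    obtain ⟨d, hd, hd1, hd2⟩ := hdef c ⟨hca, hc2.trans hb2⟩
    exact hd1 (hS d hd c hc hd2)

/-- the code of a choice of at most one argument per block -/
def code {k s : ℕ} (p : (Fin k → Fin 3) × Fin (s + 1)) (j : ℕ) : ℕ :=
  if h : j < k then (p.1 ⟨j, h⟩).val else p.2.val

/-- the chosen set -/
def chosen (n : ℕ) {k s : ℕ} (p : (Fin k → Fin 3) × Fin (s + 1)) : Set (Fin n) :=
  {x | code p (blk k x) = x.val - 2 * blk k x + 1}

lemma chosen_inj_blk {n k s : ℕ} (p : (Fin k → Fin 3) × Fin (s + 1)) (x : Fin n)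
    (hx : x ∈ chosen n p) (y : Fin n) (hy : y ∈ chosen n p) (h : blk k x = blk k y) : x = y := by
  have h1 : code p (blk k x) = x.val - 2 * blk k x + 1 := hx
  have h2 : code p (blk k y) = y.val - 2 * blk k y + 1 := hy
  rw [h] at h1
  rw [h2] at h1
  have h3 : 2 * blk k y ≤ x.val := by
    rw [← h]
    simp only [blk]
    omega
  have h4 : 2 * blk k y ≤ y.val := by
    simp only [blk]
    omega
  apply Fin.ext
  omega

lemma chosen_code {n k s : ℕ} (hn : n = 2 * k + s) (p q : (Fin k → Fin 3) × Fin (s + 1))
    (h : chosen n p ⊆ chosen n q) (j : ℕ) (hj : j ≤ k) (h0 : code p j ≠ 0) :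
    code q j = code p j := by
  obtain ⟨v, hv⟩ : ∃ v, code p j = v + 1 := ⟨code p j - 1, by omega⟩
  have hx : 2 * j + v < n ∧ blk k (2 * j + v) = j := by
    by_cases hjk : j < k
    · have : v + 1 < 3 := by
        rw [← hv]
        simp only [code, hjk, dif_pos]
        exact (p.1 ⟨j, hjk⟩).2
      simp only [blk]
      omega
    · have : v + 1 < s + 1 := by
        rw [← hv]
        simp only [code, hjk, dif_neg, not_false_iff]
        exact p.2.2
      simp only [blk]
      omega
  have hmem : (⟨2 * j + v, hx.1⟩ : Fin n) ∈ chosen n p := by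
    change code p (blk k (2 * j + v)) = (2 * j + v) - 2 * blk k (2 * j + v) + 1
    rw [hx.2, hv]
    omega
  have h2 : code q (blk k (2 * j + v)) = (2 * j + v) - 2 * blk k (2 * j + v) + 1 := h hmem
  rw [hx.2] at h2
  rw [h2, hv]
  omega

lemma chosen_injective {n k s : ℕ} (hn : n = 2 * k + s) :
    Function.Injective (fun p : (Fin k → Fin 3) × Fin (s + 1) => chosen n p) := by
  intro p q h
  have h' : chosen n p = chosen n q := h
  have key : ∀ j ≤ k, code p j = code q j := by
    intro j hj
    by_cases h1 : code p j = 0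
    · by_cases h2 : code q j = 0
      · rw [h1, h2]
      · exact chosen_code hn q p h'.symm.subset j hj h2
    · exact (chosen_code hn p q h'.subset j hj h1).symm
  apply Prod.ext
  · funext i
    have := key i.val i.2.le
    simp only [code, i.2, dif_pos] at this
    exact Fin.ext this
  · have := key k le_rfl
    simp only [code, lt_irrefl, dif_neg, not_false_iff] at this
    exact Fin.ext this

lemma lower {n k s : ℕ} (hn : n = 2 * k + s) (hs : 2 ≤ s) :
    3 ^ k * (s + 1) ≤ numComplete (blockAF n k) := by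
  have h1 : Nat.card ((Fin k → Fin 3) × Fin (s + 1)) = 3 ^ k * (s + 1) := by
    simp
  rw [← h1]
  unfold numComplete
  rw [← Nat.card_coe_set_eq]
  apply Nat.card_le_card_of_injective
    (fun p : (Fin k → Fin 3) × Fin (s + 1) =>
      (⟨chosen n p, complete_of_inj hn hs _ (chosen_inj_blk p)⟩ :
        {S : Set (Fin n) | IsComplete (blockAF n k) S}))
  intro p q h
  exact chosen_injective hn (Subtype.ext_iff.1 h)

lemma one_le_numComplete (n : ℕ) : 1 ≤ numComplete (fun _ _ : Fin n => False) := by
  unfold numComplete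
  rw [Nat.succ_le_iff, Set.ncard_pos]
  refine ⟨Set.univ, ⟨?_, ?_⟩, ?_⟩
  · intro a _ b _ h
    exact h
  · intro a _ b h
    exact h.elim
  · intro a _
    exact Set.mem_univ a

/-- **Main theorem.**  For every `n`, the maximal number of complete extensions of an
argumentation framework with `n` arguments is `conjValue n`. -/
theorem result (n : ℕ) :
    IsGreatest {m | ∃ R : Fin n → Fin n → Prop, numComplete R = m} (conjValue n) := by
  refine ⟨?_, ?_⟩
  · by_cases h1 : n ≤ 1
    · refine ⟨fun _ _ => False, le_antisymm (numComplete_le _) ?_⟩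
      have : conjValue n = 1 := by
        unfold conjValue
        rw [if_pos h1]
      rw [this]
      exact one_le_numComplete n
    · by_cases h2 : n % 2 = 0
      · refine ⟨blockAF n (n / 2 - 1), le_antisymm (numComplete_le _) ?_⟩
        have h3 := lower (n := n) (k := n / 2 - 1) (s := 2) (by omega) le_rfl
        have h4 : conjValue n = 3 ^ (n / 2 - 1) * (2 + 1) := by
          unfold conjValue
          rw [if_neg h1, if_pos h2, ← pow_succ]
          congr 1
          omega
        rw [h4]
        exact h3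
      · refine ⟨blockAF n ((n - 3) / 2), le_antisymm (numComplete_le _) ?_⟩
        have h3 := lower (n := n) (k := (n - 3) / 2) (s := 3) (by omega) (by norm_num)
        have h4 : conjValue n = 3 ^ ((n - 3) / 2) * (3 + 1) := by
          unfold conjValue
          rw [if_neg h1, if_neg h2]
          ring
        rw [h4]
        exact h3
  · rintro m ⟨R, rfl⟩
    exact numComplete_le R

end Pool.Agent.Results.MP_acab80_co.ExactMaximum
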